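import Pool.Agent.H68.CeMain

/-!
A map from the p-completed classifying space of a finite group into the classifying space of a
p-compact group, given as the p-completed telescope of classifying spaces of finite groups, need
not factor up to homotopy through any stage of the telescope.
-/

open CategoryTheory Simplicial
open Pool.Agent.H68.Ce

namespace Pool.Agent.Results.MP_ce8751_gt.TelescopeNoFactor

/-- For every prime `p` there is a direct system of classifying spaces of finite `p`-groups whose
telescope has the `p`-completion `BX = B(Z/p)`, the classifying space of a `p`-compact group, and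
there are a finite group `G`, a `p`-completion `Y` of `BG` and a map `g : Y ⟶ BX` which does not
factor up to homotopy through any stage. -/
theorem result (p : ℕ) [Fact p.Prime] :
    ∃ S : DirectSystem p,
      S.BX = BG (Multiplicative (ZMod p)) ∧
      (∀ m : ℕ, ∃ (P : Type) (_ : Group P) (_ : Finite P), IsPGroup p P ∧ S.D.obj m = BG P) ∧
      ∃ (G : Type) (_ : Group G) (_ : Finite G) (Y : SSet.{0})
        (θ : BG G ⟶ Y) (_ : IsPCompletion p θ) (g : Y ⟶ S.BX),
        ∀ m : ℕ, ¬ ∃ f : Y ⟶ S.D.obj m, Nonempty (SSet.Homotopy (f ≫ S.ι m) g) :=
  main p

end Pool.Agent.Results.MP_ce8751_gt.TelescopeNoFactor
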